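import Pool.Agent.H69.LQ.Lib

/-!
# Row JS of the board `lqm_modules`: the function `J`
-/

set_option autoImplicit false

open MeasureTheory Metric Set
open scoped ENNReal
open Pool.Agent.H85.LK (E adm lam Ann)
open Pool.Agent.H69.LQ

namespace Pool.Agent.H78.LQ

/-- rising product -/
noncomputable def Pk (k : ℕ) (ν : ℝ) : ℝ := ∏ i ∈ Finset.range k, (ν + i)

theorem Pk_pos (k : ℕ) {ν : ℝ} (hν : 0 < ν) : 0 < Pk k ν := by
  unfold Pk
  exact Finset.prod_pos fun i _ => by positivity

theorem Pk_succ (k : ℕ) (ν : ℝ) : Pk (k + 1) ν = Pk k ν * (ν + k) := by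
  unfold Pk
  rw [Finset.prod_range_succ]

theorem Pk_succ' (k : ℕ) (ν : ℝ) : Pk (k + 1) ν = ν * Pk k (ν + 1) := by
  unfold Pk
  rw [Finset.prod_range_succ', mul_comm]
  congr 1
  · simp
  · refine Finset.prod_congr rfl fun i _ => ?_
    push_cast
    ring

theorem pow_le_Pk (k : ℕ) {ν : ℝ} (hν : 0 < ν) : ν ^ k ≤ Pk k ν := by
  induction k with
  | zero => simp [Pk]
  | succ k ih =>
    rw [pow_succ, Pk_succ]
    exact mul_le_mul ih (by linarith [(Nat.cast_nonneg k : (0 : ℝ) ≤ k)]) hν.le (Pk_pos k hν).le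

/-- the terms of the series -/
noncomputable def tr (ν : ℝ) (k : ℕ) (z : ℝ) : ℝ := (-z) ^ k / (k.factorial * Pk k ν)

theorem J_eq (ν z : ℝ) : J ν z = ∑' k, tr ν k z := rfl

theorem den_pos (k : ℕ) {ν : ℝ} (hν : 0 < ν) : (0 : ℝ) < k.factorial * Pk k ν :=
  mul_pos (by exact_mod_cast k.factorial_pos) (Pk_pos k hν)

theorem summable_tr {ν : ℝ} (hν : 0 < ν) (z : ℝ) : Summable fun k => tr ν k z := by
  refine Summable.of_norm_bounded (Real.summable_pow_div_factorial (|z| / ν)) fun k => ?_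
  unfold tr
  rw [Real.norm_eq_abs, abs_div, abs_pow, abs_neg, abs_of_pos (den_pos k hν), div_pow, div_div]
  have h1 : (0 : ℝ) < k.factorial := by exact_mod_cast k.factorial_pos
  have h2 := pow_le_Pk k hν
  have h3 : 0 < ν ^ k := pow_pos hν k
  refine div_le_div_of_nonneg_left (by positivity) (by positivity) ?_
  rw [mul_comm]
  exact mul_le_mul_of_nonneg_left h2 h1.le

/-- the derivative of a term -/
noncomputable def tr' (ν : ℝ) (k : ℕ) (z : ℝ) : ℝ :=
  k * (-z) ^ (k - 1) * (-1) / (k.factorial * Pk k ν)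

theorem hasDerivAt_tr (ν : ℝ) (k : ℕ) (z : ℝ) : HasDerivAt (tr ν k) (tr' ν k z) z := by
  unfold tr tr'
  exact ((hasDerivAt_neg z).pow k).div_const _

theorem tr'_succ {ν : ℝ} (hν : 0 < ν) (k : ℕ) (z : ℝ) :
    tr' ν (k + 1) z = -(tr (ν + 1) k z / ν) := by
  unfold tr' tr
  rw [Pk_succ', Nat.factorial_succ, Nat.add_sub_cancel]
  have h1 : (0 : ℝ) < k.factorial := by exact_mod_cast k.factorial_pos
  have h2 : 0 < Pk k (ν + 1) := Pk_pos k (by linarith)
  push_cast
  field_simp

theorem tr'_zero (ν z : ℝ) : tr' ν 0 z = 0 := by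
  unfold tr'
  simp

theorem hasDerivAt_J {ν : ℝ} (hν : 0 < ν) (z : ℝ) :
    HasDerivAt (J ν) (-(J (ν + 1) z / ν)) z := by
  have hν1 : 0 < ν + 1 := by linarith
  set R : ℝ := |z| + 1 with hR
  have hR0 : 0 < R := by positivity
  let u : ℕ → ℝ := fun k => k * R ^ (k - 1) / (k.factorial * Pk k ν)
  have hu : Summable u := by
    rw [← summable_nat_add_iff 1]
    have h1 : (fun k => u (k + 1)) = fun k => 1 / ν * ‖tr (ν + 1) k R‖ := by
      funext k
      have h2 : (0 : ℝ) < k.factorial := by exact_mod_cast k.factorial_pos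
      have h3 : 0 < Pk k (ν + 1) := Pk_pos k hν1
      change ((k + 1 : ℕ) : ℝ) * R ^ (k + 1 - 1) / ((k + 1).factorial * Pk (k + 1) ν) = _
      unfold tr
      rw [Pk_succ', Nat.factorial_succ, Nat.add_sub_cancel, Real.norm_eq_abs, abs_div, abs_pow,
        abs_neg, abs_of_pos hR0, abs_of_pos (den_pos k hν1)]
      push_cast
      field_simp
    rw [h1]
    exact ((summable_tr hν1 R).norm).mul_left _
  have hball : ∀ k y, y ∈ Metric.ball (0 : ℝ) R → ‖tr' ν k y‖ ≤ u k := by
    intro k y hy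
    rw [mem_ball_zero_iff, Real.norm_eq_abs] at hy
    unfold tr'
    rw [Real.norm_eq_abs, abs_div, abs_of_pos (den_pos k hν), abs_mul, abs_mul, abs_pow, abs_neg,
      abs_neg, abs_one, mul_one, abs_of_nonneg (Nat.cast_nonneg k)]
    refine div_le_div_of_nonneg_right ?_ (den_pos k hν).le
    exact mul_le_mul_of_nonneg_left (pow_le_pow_left₀ (abs_nonneg y) hy.le _) (Nat.cast_nonneg k)
  have hz : z ∈ Metric.ball (0 : ℝ) R := by
    rw [mem_ball_zero_iff, Real.norm_eq_abs, hR]
    linarith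
  have h1 := hasDerivAt_tsum_of_isPreconnected hu isOpen_ball
    (convex_ball (0 : ℝ) R).isPreconnected (fun k y _ => hasDerivAt_tr ν k y) hball hz
    (summable_tr hν z) hz
  have hs : Summable fun k => tr' ν k z := Summable.of_norm_bounded hu fun k => hball k z hz
  have h2 : ∑' k, tr' ν k z = -(J (ν + 1) z / ν) := by
    rw [hs.tsum_eq_zero_add, tr'_zero, zero_add]
    simp only [tr'_succ hν]
    rw [tsum_neg, tsum_div_const, ← J_eq]
  rw [h2] at h1
  exact h1

theorem contDiff_J (n : ℕ) : ∀ ν : ℝ, 0 < ν → ContDiff ℝ n (J ν) := by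
  induction n with
  | zero =>
    intro ν hν
    have h1 : Differentiable ℝ (J ν) := fun z => (hasDerivAt_J hν z).differentiableAt
    exact contDiff_zero.2 h1.continuous
  | succ n ih =>
    intro ν hν
    have h1 : Differentiable ℝ (J ν) := fun z => (hasDerivAt_J hν z).differentiableAt
    have h2 : deriv (J ν) = fun z => -(J (ν + 1) z / ν) := by
      funext z
      exact (hasDerivAt_J hν z).deriv
    push_cast
    rw [contDiff_succ_iff_deriv]
    refine ⟨h1, fun h => ?_, ?_⟩
    · exact absurd h (by simp)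
    · rw [h2]
      exact ((ih (ν + 1) (by linarith)).div_const _).neg

theorem pf_JS : T_JS := by
  intro ν hν
  have hν1 : 0 < ν + 1 := by linarith
  have hν2 : 0 < ν + 2 := by linarith
  refine ⟨contDiff_infty.2 fun n => contDiff_J n ν hν, ?_, hasDerivAt_J hν, ?_⟩
  · rw [J_eq, tsum_eq_single 0]
    · unfold tr Pk
      simp
    · intro k hk
      unfold tr
      rw [neg_zero, zero_pow hk, zero_div]
  · intro z
    have h0 : ∀ μ : ℝ, 0 < μ → J μ z = 1 + ∑' k, tr μ (k + 1) z := by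
      intro μ hμ
      rw [J_eq, (summable_tr hμ z).tsum_eq_zero_add]
      congr 1
      unfold tr Pk
      simp
    have hsh : ∀ μ : ℝ, 0 < μ → Summable fun k => tr μ (k + 1) z := fun μ hμ =>
      (summable_nat_add_iff 1).2 (summable_tr hμ z)
    have h1 : ∀ k, tr ν (k + 1) z = tr (ν + 1) (k + 1) z - z / (ν * (ν + 1)) * tr (ν + 2) k z := by
      intro k
      have h2 : (0 : ℝ) < k.factorial := by exact_mod_cast k.factorial_pos
      have h3 : 0 < Pk k (ν + 2) := Pk_pos k hν2
      have h4 : Pk (k + 1) (ν + 1) = (ν + 1) * Pk k (ν + 2) := by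
        rw [Pk_succ']
        congr 2
        ring
      have h5 : Pk k (ν + 1) * (ν + 1 + k) = (ν + 1) * Pk k (ν + 2) := by
        rw [← h4, Pk_succ]
      have h6 : (0 : ℝ) < ν + 1 + k := by positivity
      have h7 : Pk k (ν + 1) = (ν + 1) * Pk k (ν + 2) / (ν + 1 + k) := by
        rw [eq_div_iff h6.ne', h5]
      unfold tr
      rw [h4, Pk_succ' k ν, h7, Nat.factorial_succ]
      push_cast
      field_simp
      ring
    rw [h0 ν hν, h0 (ν + 1) hν1, J_eq]
    simp only [h1]
    rw [Summable.tsum_sub (hsh _ hν1) ((summable_tr hν2 z).mul_left _), tsum_mul_left]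
    ring

end Pool.Agent.H78.LQ
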