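import Pool.Agent.H54.LQ.Targets

/-!
# MEM: the graph of a closed valued map with dense selectors is measurable (helper78)
-/

set_option autoImplicit false

open Set Filter Topology Pool.Agent.H93.CP Pool.Agent.H7.LP Pool.Agent.H7.LQ Pool.Agent.H54.LQ

namespace Pool.Agent.H78.LQ

theorem pf_MEM : T_MEM := by
  intro Ω E _ _ _ _ _ Φ δ hcl hm hmem hd
  have hb := TopologicalSpace.isBasis_countableBasis E
  have hc : (TopologicalSpace.countableBasis E).Countable :=
    TopologicalSpace.countable_countableBasis E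
  have h : {p : Ω × E | p.2 ∈ Φ p.1} = ⋂ U ∈ TopologicalSpace.countableBasis E,
      ({p : Ω × E | p.2 ∈ U}ᶜ ∪ ⋃ n, {p : Ω × E | δ n p.1 ∈ U}) := by
    ext p
    simp only [mem_ofPred_eq, mem_iInter, mem_union, mem_compl_iff, mem_iUnion]
    constructor
    · intro hp U hU
      by_cases hpU : p.2 ∈ U
      · obtain ⟨n, hn⟩ := hd p.1 p.2 hp U ((hb.isOpen hU).mem_nhds hpU)
        exact Or.inr ⟨n, hn⟩
      · exact Or.inl hpU
    · intro hp
      rw [← (hcl p.1).closure_eq, hb.mem_closure_iff]
      intro U hU hpU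
      rcases hp U hU with h1 | ⟨n, hn⟩
      · exact absurd hpU h1
      · exact ⟨δ n p.1, hn, hmem n p.1⟩
  rw [h]
  refine MeasurableSet.biInter hc fun U hU => ?_
  have hUm : MeasurableSet U := (hb.isOpen hU).measurableSet
  refine (measurable_snd hUm).compl.union (MeasurableSet.iUnion fun n => ?_)
  exact ((hm n).comp measurable_fst) hUm

end Pool.Agent.H78.LQ
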