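import Pool.Agent.H69.LQ.Lib

/-!
# Row FZ of the board `lqm_modules`: the first zero
-/

set_option autoImplicit false

open MeasureTheory Metric Set
open scoped ENNReal
open Pool.Agent.H85.LK (E adm lam Ann)
open Pool.Agent.H69.LQ

namespace Pool.Agent.H78.LQ

theorem pf_FZ (hJS : T_JS) (hJZ : T_JZ) : T_FZ := by
  intro N hN
  have hN0 : (0 : ℝ) ≤ (N : ℝ) / 2 := by positivity
  set ν : ℝ := (N : ℝ) / 2 + 1 with hν
  have hν1 : 1 ≤ ν := by linarith
  obtain ⟨hC, h0, -, -⟩ := hJS ν (by linarith)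
  have hcont : Continuous (J ν) := hC.continuous
  let S : Set ℝ := {z | 0 ≤ z ∧ J ν z ≤ 0}
  have hSne : S.Nonempty := by
    obtain ⟨z, hz, hz2⟩ := hJZ ν hν1
    exact ⟨z, hz.le, hz2⟩
  have hScl : IsClosed S :=
    (isClosed_le continuous_const continuous_id).inter (isClosed_le hcont continuous_const)
  have hSb : BddBelow S := ⟨0, fun z hz => hz.1⟩
  set z₁ : ℝ := sInf S with hz₁
  have hmem : z₁ ∈ S := hScl.csInf_mem hSne hSb
  have hfirst : ∀ z, 0 ≤ z → z < z₁ → 0 < J ν z := by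
    intro z hz hz2
    by_contra h
    exact absurd (csInf_le hSb (show z ∈ S from ⟨hz, not_lt.1 h⟩)) (not_le.2 hz2)
  have hpos : 0 < z₁ := by
    rcases hmem.1.eq_or_lt with h | h
    · exfalso
      have h1 := hmem.2
      rw [← h, h0] at h1
      linarith
    · exact h
  have hzero : J ν z₁ = 0 := by
    apply le_antisymm hmem.2
    by_contra h
    rw [not_le] at h
    have h1 := intermediate_value_Icc' hpos.le hcont.continuousOn
    have h2 : (0 : ℝ) ∈ Icc (J ν z₁) (J ν 0) := by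
      rw [h0]
      exact ⟨h.le, zero_le_one⟩
    obtain ⟨z, hz, hz2⟩ := h1 h2
    have h3 : z₁ ≤ z := csInf_le hSb (show z ∈ S from ⟨hz.1, hz2.le⟩)
    have h4 : z = z₁ := le_antisymm hz.2 h3
    rw [h4] at hz2
    rw [hz2] at h
    exact lt_irrefl _ h
  refine ⟨4 * z₁, by positivity, ?_, ?_⟩
  · rw [← hν, mul_div_cancel_left₀ _ (by norm_num : (4 : ℝ) ≠ 0)]
    exact hzero
  · intro z hz hz2
    rw [mul_div_cancel_left₀ _ (by norm_num : (4 : ℝ) ≠ 0)] at hz2
    exact hfirst z hz hz2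

end Pool.Agent.H78.LQ
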